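import Pool.Graph.R_seed8.H433R3.Sep24
import Pool.Agent.KS6_4.SB.A22
import Pool.Agent.KS6_4.SB.A23

/-!
# Separated bumps: the sharp integral conditions, for every `1 < p < ∞`

Let `1 < p < ∞`, `1/p + 1/q = 1`, and let `Φ₁, Φ₂` be Young functions. The separated bump conditions
for a pair of weights are `sup_Q ‖w‖_{L^{Φ₁}(Q)}^(p-1) ⟨σ⟩_Q < ∞` and
`sup_Q ⟨w⟩_Q^(p-1) ‖σ‖_{L^{Φ₂}(Q)} < ∞`. They imply that `T(· w)` is bounded from `L^p(w)` to
`L^p(σ)` for every Calderon-Zygmund operator `T` if and only if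
`∫^∞ (x / Φ₁(x))^(p-1) dx / x < ∞` and `∫^∞ (x / Φ₂(x))^(q-1) dx / x < ∞`, and the same two
conditions are necessary and sufficient for sparse operators. For `p = 2` the sufficiency for
Calderon-Zygmund operators is the question of the problem.

Outline of the proof. Sufficiency: pointwise domination with sparse families in a shifted dyadic grid
reduces the problem to positive dyadic operators. For these a two-sided testing theorem in `L^p` is
proved directly, and the testing conditions are deduced from the bumps by splitting the tested sum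
according to the ratio of the weighted average to the average of the weight over the stopping
ancestor. Necessity: the operator with the kernel
`(|x| - 2|y|)₊ / |x|^(d+1) + (|y| - 2|x|)₊ / |y|^(d+1)` is a Calderon-Zygmund operator, dominated by
the sparse operator of the cubes `[-2^k, 2^k)^d`; it is unbounded for the indicator of a ball and
`(Φ⁻¹(|x|^d))^s`.
-/

set_option autoImplicit false

namespace Pool.Agent.Results.MP_93f72d_an.Characterization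

open MeasureTheory Filter Topology
open scoped ENNReal NNReal

/-- Young functions: continuous, convex, nondecreasing on `[0, ∞)`, with `Φ 0 = 0` and
`Φ t / t → ∞` as `t → ∞`. -/
structure IsYoung (Φ : ℝ≥0 → ℝ≥0) : Prop where
  cont : Continuous Φ
  conv : ConvexOn ℝ≥0 Set.univ Φ
  mono : Monotone Φ
  zero : Φ 0 = 0
  superlin : Tendsto (fun t : ℝ≥0 => Φ t / t) atTop atTop

/-- `∫_c^∞ (x / Φ(x))^s dx / x < ∞` for some `c > 0`. For `s = 1` this is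
`∫_c^∞ dx / Φ(x) < ∞`. -/
def IntegralCondition (s : ℝ) (Φ : ℝ≥0 → ℝ≥0) : Prop :=
  ∃ c : ℝ≥0, 0 < c ∧ ∫⁻ x in Set.Ioi (c : ℝ),
    (ENNReal.ofReal x / (Φ x.toNNReal : ℝ≥0∞)) ^ s / ENNReal.ofReal x < ∞

/-- Weights on `ℝ^d`: nonnegative and locally integrable. -/
def IsWeight {d : ℕ} (w : (Fin d → ℝ) → ℝ≥0) : Prop :=
  LocallyIntegrable (fun x => (w x : ℝ)) volume

/-- The cube in `ℝ^d` with lower corner `a` and side length `l`, sides parallel to the axes. -/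
def cube {d : ℕ} (a : Fin d → ℝ) (l : ℝ) : Set (Fin d → ℝ) := {x | ∀ i, a i ≤ x i ∧ x i < a i + l}

/-- The average of a nonnegative function over a set, with respect to Lebesgue measure. -/
noncomputable def avg {d : ℕ} (u : (Fin d → ℝ) → ℝ≥0) (Q : Set (Fin d → ℝ)) : ℝ≥0∞ :=
  (volume Q)⁻¹ * ∫⁻ x in Q, (u x : ℝ≥0∞)

/-- The normalised Luxemburg norm `‖u‖_{L^Φ(Q)}` of a nonnegative function (`∞` if there is no
admissible `l`). -/
noncomputable def lux {d : ℕ} (Φ : ℝ≥0 → ℝ≥0) (u : (Fin d → ℝ) → ℝ≥0) (Q : Set (Fin d → ℝ)) :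
    ℝ≥0∞ :=
  ⨅ (l : ℝ≥0) (_ : 0 < l ∧ avg (fun x => Φ (u x / l)) Q ≤ 1), (l : ℝ≥0∞)

/-- Euclidean length in `ℝ^d`. -/
noncomputable def len {d : ℕ} (x : Fin d → ℝ) : ℝ := Real.sqrt (∑ i, x i ^ 2)

section ops

variable {𝕜 : Type*} [RCLike 𝕜] {d : ℕ}

/-- `T` is a bounded linear operator on `L²(ℝ^d)`, given by its action on square integrable
functions, up to null sets. -/
structure IsL2Op (T : ((Fin d → ℝ) → 𝕜) → ((Fin d → ℝ) → 𝕜)) : Prop where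
  mem : ∀ f, MemLp f 2 volume → MemLp (T f) 2 volume
  add : ∀ f g, MemLp f 2 volume → MemLp g 2 volume →
    T (fun x => f x + g x) =ᵐ[volume] fun x => T f x + T g x
  smul : ∀ (c : 𝕜) (f : (Fin d → ℝ) → 𝕜), MemLp f 2 volume →
    T (fun x => c * f x) =ᵐ[volume] fun x => c * T f x
  bound : ∃ A : ℝ≥0, ∀ f, MemLp f 2 volume → eLpNorm (T f) 2 volume ≤ A * eLpNorm f 2 volume

/-- `T` is a Calderon-Zygmund operator with kernel `K`. The representation formula is only asked for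
bounded `f` with compact support. -/
structure IsCZO (T : ((Fin d → ℝ) → 𝕜) → ((Fin d → ℝ) → 𝕜))
    (K : (Fin d → ℝ) → (Fin d → ℝ) → 𝕜) : Prop where
  l2 : IsL2Op T
  rep : ∀ f : (Fin d → ℝ) → 𝕜, MemLp f 2 volume → (∃ B : ℝ, ∀ x, ‖f x‖ ≤ B) →
    HasCompactSupport f → ∀ᵐ x, x ∉ tsupport f → T f x = ∫ y, K x y * f y
  size : ∃ C : ℝ, ∀ x y, x ≠ y → ‖K x y‖ ≤ C / len (x - y) ^ d
  reg : ∃ C α : ℝ, 0 < α ∧ α ≤ 1 ∧ ∀ x x' y, x ≠ y → len (x - x') ≤ len (x - y) / 2 →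
    ‖K x y - K x' y‖ + ‖K y x - K y x'‖ ≤ C * len (x - x') ^ α / len (x - y) ^ ((d : ℝ) + α)

/-- `g` is the value at the integrable function `h` of the extension of `T` by continuity from
`L¹ ∩ L²` to `L¹`: whenever `F n ∈ L¹ ∩ L²` and `F n → h` in `L¹`, then `T (F n) → g` in measure. -/
def IsValue (T : ((Fin d → ℝ) → 𝕜) → ((Fin d → ℝ) → 𝕜)) (h g : (Fin d → ℝ) → 𝕜) : Prop :=
  AEStronglyMeasurable g volume ∧
  ∀ F : ℕ → (Fin d → ℝ) → 𝕜, (∀ n, MemLp (F n) 2 volume) → (∀ n, Integrable (F n) volume) →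
    Tendsto (fun n => ∫⁻ x, ‖F n x - h x‖ₑ) atTop (𝓝 0) →
    TendstoInMeasure volume (fun n => T (F n)) atTop g

/-- The norm of `f` in `L^p(w)`. -/
noncomputable def wnorm (p : ℝ) (w : (Fin d → ℝ) → ℝ≥0) (f : (Fin d → ℝ) → 𝕜) : ℝ≥0∞ :=
  eLpNorm f (ENNReal.ofReal p) (volume.withDensity fun x => (w x : ℝ≥0∞))

/-- The separated bump conditions with constant `M`, with Young functions `Φ₁, Φ₂` and exponent
`p`: `‖w‖_{L^{Φ₁}(Q)}^(p-1) ⟨σ⟩_Q ≤ M` and `⟨w⟩_Q^(p-1) ‖σ‖_{L^{Φ₂}(Q)} ≤ M` for all cubes `Q`. -/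
def Bumps (p : ℝ) (Φ₁ Φ₂ : ℝ≥0 → ℝ≥0) (w σ : (Fin d → ℝ) → ℝ≥0) (M : ℝ≥0) : Prop :=
  (∀ (a : Fin d → ℝ) (l : ℝ), 0 < l → lux Φ₁ w (cube a l) ^ (p - 1) * avg σ (cube a l) ≤ M) ∧
  (∀ (a : Fin d → ℝ) (l : ℝ), 0 < l → avg w (cube a l) ^ (p - 1) * lux Φ₂ σ (cube a l) ≤ M)

/-- `T(· w)` is bounded from `L^p(w)` to `L^p(σ)` with constant `C`:
`‖T (w f)‖_{L^p(σ)} ≤ C ‖f‖_{L^p(w)}` for all bounded `f` with compact support. -/
def BoundedBy (p : ℝ) (T : ((Fin d → ℝ) → 𝕜) → ((Fin d → ℝ) → 𝕜))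
    (w σ : (Fin d → ℝ) → ℝ≥0) (C : ℝ≥0) : Prop :=
  ∀ f : (Fin d → ℝ) → 𝕜, AEStronglyMeasurable f volume → (∃ B : ℝ, ∀ x, ‖f x‖ ≤ B) →
    HasCompactSupport f →
    (∃ g, IsValue T (fun x => ((w x : ℝ) : 𝕜) * f x) g) ∧
    ∀ g, IsValue T (fun x => ((w x : ℝ) : 𝕜) * f x) g → wnorm p σ g ≤ C * wnorm p w f

/-- `S` is a `γ`-sparse family of cubes: there are pairwise disjoint measurable `E Q ⊆ Q` with
`|E Q| ≥ γ |Q|`, for `Q ∈ S`. -/
def IsSparse (γ : ℝ≥0) (S : Set (Set (Fin d → ℝ))) : Prop :=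
  (∀ Q ∈ S, ∃ (a : Fin d → ℝ) (l : ℝ), 0 < l ∧ Q = cube a l) ∧
  ∃ E : Set (Fin d → ℝ) → Set (Fin d → ℝ),
    (∀ Q ∈ S, MeasurableSet (E Q) ∧ E Q ⊆ Q ∧ γ * volume Q ≤ volume (E Q)) ∧
    S.PairwiseDisjoint E

/-- The sparse operator: `∑_{Q ∈ S} ⟨|f|⟩_Q 1_Q`. -/
noncomputable def sparseOp (S : Set (Set (Fin d → ℝ))) (f : (Fin d → ℝ) → 𝕜) (x : Fin d → ℝ) :
    ℝ≥0∞ :=
  ∑' Q : S, (Q : Set (Fin d → ℝ)).indicator
    (fun _ => (volume (Q : Set (Fin d → ℝ)))⁻¹ * ∫⁻ y in (Q : Set (Fin d → ℝ)), ‖f y‖ₑ) x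

/-- The norm of `sparseOp S (w f)` in `L^p(σ)`. -/
noncomputable def sparseNorm (p : ℝ) (S : Set (Set (Fin d → ℝ))) (w σ : (Fin d → ℝ) → ℝ≥0)
    (f : (Fin d → ℝ) → 𝕜) : ℝ≥0∞ :=
  (∫⁻ x, sparseOp S (fun y => ((w y : ℝ) : 𝕜) * f y) x ^ p
    ∂(volume.withDensity fun x => (σ x : ℝ≥0∞))) ^ (1 / p)

end ops

section aux

open Pool.Agent.H433R3

variable {𝕜 : Type*} [RCLike 𝕜] {d : ℕ}
variable {T : ((Fin d → ℝ) → 𝕜) → ((Fin d → ℝ) → 𝕜)}
variable {K : (Fin d → ℝ) → (Fin d → ℝ) → 𝕜}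

lemma IsYoung.toSep {Φ : ℝ≥0 → ℝ≥0} (h : IsYoung Φ) : Sep.IsYoung Φ :=
  ⟨h.cont, h.conv, h.mono, h.zero, h.superlin⟩

lemma IsCZO.toSep (h : IsCZO T K) :
    ∃ T' : Lp 𝕜 2 (volume : Measure (Fin d → ℝ)) →L[𝕜] Lp 𝕜 2 (volume : Measure (Fin d → ℝ)),
      Sep.IsCZO T' K ∧ ∀ f, MemLp f 2 volume → Sep.TT T' f =ᵐ[volume] T f := by
  obtain ⟨T', hT'⟩ := Sep.exists_clm h.l2.mem h.l2.add h.l2.smul h.l2.bound
  refine ⟨T', ⟨?_, h.size, h.reg⟩, ?_⟩
  · intro f hf hB hc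
    filter_upwards [hT' f hf, h.rep f hf hB hc] with x hx hx' hxs
    rw [hx, hx' hxs]
  · intro f hf
    rw [Sep.TT_eq hf]
    exact hT' f hf

/-- For `h ∈ L¹ ∩ L²` the value of the extension is `T h`. -/
theorem IsValue.eq_of_memLp {h g : (Fin d → ℝ) → 𝕜} (hg : IsValue T h g) (h2 : MemLp h 2 volume)
    (h1 : Integrable h volume) : T h =ᵐ[volume] g := by
  have e1 := hg.2 (fun _ => h) (fun _ => h2) (fun _ => h1) (by simp)
  have e2 : TendstoInMeasure volume (fun (_ : ℕ) => T h) atTop (T h) := by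
    intro ε hε
    have : {x : Fin d → ℝ | ε ≤ edist (T h x) (T h x)} = ∅ := by
      ext x
      simp only [edist_self, Set.mem_empty_iff_false, iff_false]
      intro hx
      have hx' : ε ≤ 0 := hx
      exact absurd hx' (not_le.2 hε)
    simp only [this, measure_empty]
    exact tendsto_const_nhds
  exact tendstoInMeasure_ae_unique e2 e1

lemma lux_congr {Φ : ℝ≥0 → ℝ≥0} {u v : (Fin d → ℝ) → ℝ≥0} (huv : u =ᵐ[volume] v)
    (Q : Set (Fin d → ℝ)) : Sep.lux volume Φ v Q = lux Φ u Q := by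
  unfold Sep.lux lux avg
  have : ∀ l : ℝ≥0, ∫⁻ x in Q, (Φ (v x / l) : ℝ≥0∞) = ∫⁻ x in Q, (Φ (u x / l) : ℝ≥0∞) := by
    intro l
    apply lintegral_congr_ae
    filter_upwards [ae_restrict_of_ae huv] with x hx
    rw [hx]
  simp only [this]

lemma wm_congr {u v : (Fin d → ℝ) → ℝ≥0} (huv : u =ᵐ[volume] v) :
    Sep.wm volume v = volume.withDensity (fun x => (u x : ℝ≥0∞)) := by
  unfold Sep.wm
  apply withDensity_congr_ae
  filter_upwards [huv] with x hx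
  rw [hx]

lemma cube_meas (a : Fin d → ℝ) (l : ℝ) : MeasurableSet (cube a l) := by
  have : cube a l = Set.pi Set.univ (fun i => Set.Ico (a i) (a i + l)) := by
    ext x
    simp only [cube, Set.mem_univ_pi, Set.mem_Ico, Set.mem_ofPred_eq]
  rw [this]
  exact MeasurableSet.univ_pi (fun i => measurableSet_Ico)

lemma lin_fin {u : (Fin d → ℝ) → ℝ≥0} (hu : IsWeight u)
    {A : Set (Fin d → ℝ)} (hA : IsCompact A) : ∫⁻ x in A, (u x : ℝ≥0∞) < ∞ := by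
  have h1 := (LocallyIntegrable.integrableOn_isCompact hu hA).2
  have h2 : ∫⁻ x in A, ‖(u x : ℝ)‖ₑ < ∞ := h1
  refine lt_of_le_of_lt (le_of_eq ?_) h2
  apply lintegral_congr
  intro x
  rw [← ofReal_norm, Real.norm_of_nonneg (u x).coe_nonneg, ENNReal.ofReal_coe_nnreal]

lemma wd_fin {u : (Fin d → ℝ) → ℝ≥0} (hu : IsWeight u)
    (a : Fin d → ℝ) (l : ℝ) : ∫⁻ x in cube a l, (u x : ℝ≥0∞) < ∞ := by
  refine lt_of_le_of_lt (lintegral_mono_set ?_) (lin_fin hu (isCompact_Icc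
    (a := a) (b := fun i => a i + l)))
  intro x hx
  have hx' : ∀ i, a i ≤ x i ∧ x i < a i + l := hx
  exact ⟨fun i => (hx' i).1, fun i => (hx' i).2.le⟩

lemma rpow_eLp {μ : Measure (Fin d → ℝ)} {p : ℝ} (hp : 0 < p) (f : (Fin d → ℝ) → 𝕜) :
    eLpNorm f (ENNReal.ofReal p) μ = (∫⁻ x, ‖f x‖ₑ ^ p ∂μ) ^ (1 / p) := by
  rw [eLpNorm_eq_lintegral_rpow_enorm_toReal (by simpa using hp) ENNReal.ofReal_ne_top,
    ENNReal.toReal_ofReal hp.le]

end aux

open Pool.Agent.H433R3 in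
/-- Sufficiency for Calderon-Zygmund operators. -/
theorem suff_czo {d : ℕ} (hd : 0 < d) {𝕜 : Type*} [RCLike 𝕜] {p q : ℝ} (hpq : p.HolderConjugate q)
    {Φ₁ Φ₂ : ℝ≥0 → ℝ≥0} (hΦ₁ : IsYoung Φ₁) (hΦ₂ : IsYoung Φ₂)
    (hB₁ : IntegralCondition (p - 1) Φ₁) (hB₂ : IntegralCondition (q - 1) Φ₂)
    (T : ((Fin d → ℝ) → 𝕜) → ((Fin d → ℝ) → 𝕜))
    (K : (Fin d → ℝ) → (Fin d → ℝ) → 𝕜) (hT : IsCZO T K) (M : ℝ≥0) :
    ∃ C : ℝ≥0, ∀ w σ : (Fin d → ℝ) → ℝ≥0, IsWeight w → IsWeight σ → Bumps p Φ₁ Φ₂ w σ M →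
      BoundedBy p T w σ C := by
  obtain ⟨c₁, hc₁, hi₁⟩ := hB₁
  obtain ⟨c₂, hc₂, hi₂⟩ := hB₂
  obtain ⟨T', hT', hTT⟩ := hT.toSep
  have hp1 : 1 < p := hpq.lt
  have hp0 : 0 < p := by linarith
  have hq1 : 1 < q := hpq.symm.lt
  have hpq1 : (p - 1) * (q - 1) = 1 := by
    have := hpq.mul_eq_add
    nlinarith
  obtain ⟨C, hC⟩ := Pool.Agent.KS6_4.SB.mainMeas hpq hd hΦ₁.toSep hΦ₂.toSep ⟨c₁, hc₁, hi₁.ne⟩
    ⟨c₂, hc₂, hi₂.ne⟩ M (M ^ (q - 1)) hT'
  refine ⟨C ^ (1 / p), ?_⟩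
  intro w σ hw hσ hbb f hf hB hcs
  obtain ⟨hb₁, hb₂⟩ := hbb
  -- measurable representatives
  have hw0 : AEMeasurable w volume := by
    have := (LocallyIntegrable.aestronglyMeasurable hw).aemeasurable.real_toNNReal
    simpa using this
  have hσ0 : AEMeasurable σ volume := by
    have := (LocallyIntegrable.aestronglyMeasurable hσ).aemeasurable.real_toNNReal
    simpa using this
  obtain ⟨w', hw', hww⟩ := hw0
  obtain ⟨σ', hσ', hσσ⟩ := hσ0
  obtain ⟨f', hf', hff⟩ := hf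
  have hcube : ∀ (a : Fin d → ℝ) (l : ℝ), Sep.cube a l = cube a l := fun a l => rfl
  have hwm : ∀ {u v : (Fin d → ℝ) → ℝ≥0}, u =ᵐ[volume] v → ∀ (a : Fin d → ℝ) (l : ℝ),
      Sep.wm volume v (Sep.cube a l) = ∫⁻ x in cube a l, (u x : ℝ≥0∞) := by
    intro u v huv a l
    rw [wm_congr huv, hcube, withDensity_apply _ (cube_meas a l)]
  set h : (Fin d → ℝ) → 𝕜 := fun x => ((w' x : ℝ) : 𝕜) * f' x with hh
  have hhm : Measurable h :=
    (RCLike.continuous_ofReal.measurable.comp hw'.coe_nnreal_real).mul hf'.measurable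
  have hhf : h =ᵐ[volume] fun x => ((w x : ℝ) : 𝕜) * f x := by
    filter_upwards [hww, hff] with x hx hx'
    simp only [hh]
    rw [hx, hx']
  have hhfin : ∫⁻ x, ‖h x‖ₑ ≠ ∞ := by
    obtain ⟨B, hB⟩ := hB
    have h1 : ∫⁻ x, ‖h x‖ₑ ≤ ∫⁻ x in tsupport f, ENNReal.ofReal B * (w x : ℝ≥0∞) := by
      rw [← lintegral_indicator (isClosed_tsupport f).measurableSet]
      apply lintegral_mono_ae
      filter_upwards [hhf] with x hx
      rw [hx]
      by_cases h2 : x ∈ tsupport f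
      · rw [Set.indicator_of_mem h2, enorm_mul, mul_comm]
        apply mul_le_mul'
        · rw [← ofReal_norm]
          exact ENNReal.ofReal_le_ofReal (hB x)
        · rw [← ofReal_norm, RCLike.norm_ofReal, abs_of_nonneg (w x).coe_nonneg,
            ENNReal.ofReal_coe_nnreal]
      · rw [image_eq_zero_of_notMem_tsupport h2, mul_zero, enorm_zero]
        exact bot_le
    apply ne_of_lt
    refine lt_of_le_of_lt h1 ?_
    rw [lintegral_const_mul' _ _ ENNReal.ofReal_ne_top]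
    exact ENNReal.mul_lt_top ENNReal.ofReal_lt_top (lin_fin hw hcs.isCompact)
  have hlin : ∀ F : (Fin d → ℝ) → 𝕜, ∫⁻ x, ‖F x - ((w x : ℝ) : 𝕜) * f x‖ₑ =
      ∫⁻ x, ‖F x - h x‖ₑ := by
    intro F
    apply lintegral_congr_ae
    filter_upwards [hhf] with x hx
    rw [hx]
  obtain ⟨g, hg, hgF, hgb⟩ := hC w' σ' hw' hσ'
    (fun a l _ => by rw [hwm hww]; exact wd_fin hw a l)
    (fun a l _ => by rw [hwm hσσ]; exact wd_fin hσ a l)
    (fun a l hl => by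
      rw [hwm hσσ, hcube, lux_congr hww, div_eq_mul_inv, mul_comm (∫⁻ x in cube a l, (σ x : ℝ≥0∞))]
      exact hb₁ a l hl)
    (fun a l hl => by
      rw [hwm hww, hcube, lux_congr hσσ, div_eq_mul_inv, mul_comm (∫⁻ x in cube a l, (w x : ℝ≥0∞)),
        mul_comm]
      have h1 := ENNReal.rpow_le_rpow (hb₂ a l hl) (by linarith : (0:ℝ) ≤ q - 1)
      rw [ENNReal.mul_rpow_of_nonneg _ _ (by linarith : (0:ℝ) ≤ q - 1), ← ENNReal.rpow_mul, hpq1,
        ENNReal.rpow_one] at h1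
      rw [ENNReal.coe_rpow_of_nonneg _ (by linarith : (0:ℝ) ≤ q - 1)]
      exact h1)
    f' h hf'.measurable hhm (fun x => rfl) hhfin
  have hval : IsValue T (fun x => ((w x : ℝ) : 𝕜) * f x) g := by
    refine ⟨hg.aestronglyMeasurable, ?_⟩
    intro F hF2 hF1 hFl
    have h1 := hgF F hF2 (fun n => memLp_one_iff_integrable.2 (hF1 n))
      (by simpa only [hlin] using hFl)
    exact h1.congr_left (fun n => hTT (F n) (hF2 n))
  refine ⟨⟨g, hval⟩, ?_⟩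
  intro g₁ hg₁
  obtain ⟨H, hH2, hH1, hHl⟩ := Sep.exists_approx h hhm hhfin
  have hgg : g =ᵐ[volume] g₁ := by
    have e1 := hval.2 H hH2 (fun n => memLp_one_iff_integrable.1 (hH1 n))
      (by simpa only [hlin] using hHl)
    have e2 := hg₁.2 H hH2 (fun n => memLp_one_iff_integrable.1 (hH1 n))
      (by simpa only [hlin] using hHl)
    exact tendstoInMeasure_ae_unique e1 e2
  rw [wm_congr hσσ, wm_congr hww] at hgb
  have hacσ : volume.withDensity (fun x => (σ x : ℝ≥0∞)) ≪ (volume : Measure (Fin d → ℝ)) :=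
    withDensity_absolutelyContinuous _ _
  have hacw : volume.withDensity (fun x => (w x : ℝ≥0∞)) ≪ (volume : Measure (Fin d → ℝ)) :=
    withDensity_absolutelyContinuous _ _
  unfold wnorm
  rw [← eLpNorm_congr_ae (hacσ.ae_le hgg), eLpNorm_congr_ae (hacw.ae_le hff)]
  rw [rpow_eLp hp0, rpow_eLp hp0, ENNReal.coe_rpow_of_nonneg _ (by positivity : (0:ℝ) ≤ 1 / p),
    ← ENNReal.mul_rpow_of_nonneg _ _ (by positivity : (0:ℝ) ≤ 1 / p)]
  exact ENNReal.rpow_le_rpow hgb (by positivity)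


open Pool.Agent.H433R3 in
/-- Averages of `w f`, with measurable representatives. -/
lemma avg_eq {d : ℕ} {𝕜 : Type*} [RCLike 𝕜] {w w' : (Fin d → ℝ) → ℝ≥0} {f f' : (Fin d → ℝ) → 𝕜}
    (hww : w =ᵐ[volume] w') (hff : f =ᵐ[volume] f') (hw' : Measurable w') (hf' : Measurable f')
    {Q : Set (Fin d → ℝ)} (hQ : MeasurableSet Q) :
    ∫⁻ y in Q, ‖((w y : ℝ) : 𝕜) * f y‖ₑ = ∫⁻ z in Q, ‖f' z‖ₑ ∂(Sep.wm volume w') := by
  unfold Sep.wm
  rw [setLIntegral_withDensity_eq_setLIntegral_mul volume hw'.coe_nnreal_ennreal hf'.enorm hQ]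
  apply lintegral_congr_ae
  filter_upwards [ae_restrict_of_ae hww, ae_restrict_of_ae hff] with y h1 h2
  rw [h1, h2, enorm_mul, Pi.mul_apply]
  congr 1
  rw [← ofReal_norm, RCLike.norm_ofReal, abs_of_nonneg (w' y).coe_nonneg,
    ENNReal.ofReal_coe_nnreal]

open Pool.Agent.H433R3 in
/-- Sufficiency for sparse operators. -/
theorem suff_sparse {d : ℕ} (hd : 0 < d) {𝕜 : Type*} [RCLike 𝕜] {p q : ℝ}
    (hpq : p.HolderConjugate q)
    {Φ₁ Φ₂ : ℝ≥0 → ℝ≥0} (hΦ₁ : IsYoung Φ₁) (hΦ₂ : IsYoung Φ₂)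
    (hB₁ : IntegralCondition (p - 1) Φ₁) (hB₂ : IntegralCondition (q - 1) Φ₂)
    {γ : ℝ≥0} (hγ : 0 < γ) (M : ℝ≥0) :
    ∃ C : ℝ≥0, ∀ S : Set (Set (Fin d → ℝ)), IsSparse γ S →
      ∀ w σ : (Fin d → ℝ) → ℝ≥0, IsWeight w → IsWeight σ → Bumps p Φ₁ Φ₂ w σ M →
      ∀ f : (Fin d → ℝ) → 𝕜, AEStronglyMeasurable f volume →
        sparseNorm p S w σ f ≤ C * wnorm p w f := by
  obtain ⟨c₁, hc₁, hi₁⟩ := hB₁
  obtain ⟨c₂, hc₂, hi₂⟩ := hB₂
  have hp1 : 1 < p := hpq.lt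
  have hp0 : 0 < p := by linarith
  have hq1 : 1 < q := hpq.symm.lt
  have hpq1 : (p - 1) * (q - 1) = 1 := by
    have := hpq.mul_eq_add
    nlinarith
  obtain ⟨N, hN⟩ := exists_nat_gt (1 / γ)
  have hN0 : 0 < N := by
    rcases Nat.eq_zero_or_pos N with h | h
    · rw [h] at hN
      exact absurd hN (by simp)
    · exact h
  have hNγ : (1:ℝ≥0∞) ≤ N * γ := by
    have h1 : (1:ℝ≥0) ≤ N * γ := by
      have := (div_lt_iff₀ hγ).1 hN
      exact this.le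
    exact_mod_cast h1
  obtain ⟨C, hC⟩ := Pool.Agent.KS6_4.SB.sparseGen hpq hd hΦ₁.toSep hΦ₂.toSep ⟨c₁, hc₁, hi₁.ne⟩
    ⟨c₂, hc₂, hi₂.ne⟩ M (M ^ (q - 1)) N hN0
  refine ⟨C ^ (1 / p), ?_⟩
  intro S hS w σ hw hσ hbb f hf
  obtain ⟨hb₁, hb₂⟩ := hbb
  obtain ⟨hcub, E, hE, hdis⟩ := hS
  have hw0 : AEMeasurable w volume := by
    have := (LocallyIntegrable.aestronglyMeasurable hw).aemeasurable.real_toNNReal
    simpa using this
  have hσ0 : AEMeasurable σ volume := by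
    have := (LocallyIntegrable.aestronglyMeasurable hσ).aemeasurable.real_toNNReal
    simpa using this
  obtain ⟨w', hw', hww⟩ := hw0
  obtain ⟨σ', hσ', hσσ⟩ := hσ0
  obtain ⟨f', hf', hff⟩ := hf
  have hcube : ∀ (a : Fin d → ℝ) (l : ℝ), Sep.cube a l = cube a l := fun a l => rfl
  have hwm : ∀ {u v : (Fin d → ℝ) → ℝ≥0}, u =ᵐ[volume] v → ∀ (a : Fin d → ℝ) (l : ℝ),
      Sep.wm volume v (Sep.cube a l) = ∫⁻ x in cube a l, (u x : ℝ≥0∞) := by
    intro u v huv a l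
    rw [wm_congr huv, hcube, withDensity_apply _ (cube_meas a l)]
  have hcub' : ∀ Q : S, ∃ (a : Fin d → ℝ) (l : ℝ), 0 < l ∧ (Q : Set (Fin d → ℝ)) = cube a l :=
    fun Q => hcub Q Q.2
  choose a l hl hQ using hcub'
  have hvol : ∀ Q : S, volume (Q : Set (Fin d → ℝ)) ≠ 0 := by
    intro Q
    rw [hQ Q]
    exact (Pool.Agent.KS6_4.SB.cube_vne (a Q) (hl Q)).1
  have hdis' : Pairwise (Function.onFun Disjoint (fun Q : S => E Q)) := by
    intro Q Q' hne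
    exact hdis Q.2 Q'.2 (fun h => hne (Subtype.ext h))
  have hcount : Countable S := by
    have h1 := Measure.countable_meas_pos_of_disjoint_iUnion (μ := (volume : Measure (Fin d → ℝ)))
      (As := fun Q : S => E Q) (fun Q => (hE Q Q.2).1) hdis'
    have h2 : {Q : S | 0 < volume (E (Q : Set (Fin d → ℝ)))} = Set.univ := by
      apply Set.eq_univ_of_forall
      intro Q
      have h3 := (hE Q Q.2).2.2
      refine lt_of_lt_of_le ?_ h3
      rw [pos_iff_ne_zero]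
      exact mul_ne_zero (by exact_mod_cast hγ.ne') (hvol Q)
    rw [h2] at h1
    exact Set.countable_univ_iff.1 h1
  have hmain := hC w' σ' hw' hσ'
    (fun a l _ => by rw [hwm hww]; exact wd_fin hw a l)
    (fun a l _ => by rw [hwm hσσ]; exact wd_fin hσ a l)
    (fun a l hl => by
      rw [hwm hσσ, hcube, lux_congr hww, div_eq_mul_inv, mul_comm (∫⁻ x in cube a l, (σ x : ℝ≥0∞))]
      exact hb₁ a l hl)
    (fun a l hl => by
      rw [hwm hww, hcube, lux_congr hσσ, div_eq_mul_inv, mul_comm (∫⁻ x in cube a l, (w x : ℝ≥0∞)),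
        mul_comm]
      have h1 := ENNReal.rpow_le_rpow (hb₂ a l hl) (by linarith : (0:ℝ) ≤ q - 1)
      rw [ENNReal.mul_rpow_of_nonneg _ _ (by linarith : (0:ℝ) ≤ q - 1), ← ENNReal.rpow_mul, hpq1,
        ENNReal.rpow_one] at h1
      rw [ENNReal.coe_rpow_of_nonneg _ (by linarith : (0:ℝ) ≤ q - 1)]
      exact h1)
    S a l (fun Q => E Q) hl (fun Q => (hE Q Q.2).1)
    (fun Q => by rw [hcube, ← hQ Q]; exact (hE Q Q.2).2.1)
    (fun Q => by
      rw [hcube, ← hQ Q]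
      calc volume (Q : Set (Fin d → ℝ)) = 1 * volume (Q : Set (Fin d → ℝ)) := (one_mul _).symm
        _ ≤ (N * γ) * volume (Q : Set (Fin d → ℝ)) := mul_le_mul' hNγ le_rfl
        _ = N * (γ * volume (Q : Set (Fin d → ℝ))) := by rw [mul_assoc]
        _ ≤ _ := mul_le_mul' le_rfl (hE Q Q.2).2.2)
    (fun Q Q' h => hdis' h) (fun z => ‖f' z‖ₑ) hf'.measurable.enorm
  rw [wm_congr hσσ, wm_congr hww] at hmain
  have hop : ∀ y, sparseOp S (fun y => ((w y : ℝ) : 𝕜) * f y) y =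
      ∑' Q : S, (Sep.cube (a Q) (l Q)).indicator
        (fun _ => (∫⁻ z in Sep.cube (a Q) (l Q), ‖f' z‖ₑ ∂(volume.withDensity
          fun x => (w x : ℝ≥0∞))) / volume (Sep.cube (a Q) (l Q))) y := by
    intro y
    unfold sparseOp
    apply tsum_congr
    intro Q
    rw [hcube, ← hQ Q, avg_eq hww hff hw' hf'.measurable (by rw [hQ Q]; exact cube_meas _ _),
      wm_congr hww, div_eq_mul_inv, mul_comm]
  have hacw : volume.withDensity (fun x => (w x : ℝ≥0∞)) ≪ (volume : Measure (Fin d → ℝ)) :=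
    withDensity_absolutelyContinuous _ _
  unfold sparseNorm wnorm
  rw [eLpNorm_congr_ae (hacw.ae_le hff), rpow_eLp hp0,
    ENNReal.coe_rpow_of_nonneg _ (by positivity : (0:ℝ) ≤ 1 / p),
    ← ENNReal.mul_rpow_of_nonneg _ _ (by positivity : (0:ℝ) ≤ 1 / p)]
  apply ENNReal.rpow_le_rpow _ (by positivity)
  simp only [hop]
  exact hmain

section necessity

open Pool.Agent.H433R3 Pool.Agent.KS6_4.SB

variable {d : ℕ}

/-- The operator with the kernel `hk` is a Calderon-Zygmund operator. -/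
theorem isCZO_TH (hd : 0 < d) (𝕜 : Type*) [RCLike 𝕜] :
    IsCZO (𝕜 := 𝕜) (d := d) TH (fun x y => ((hk x y : ℝ) : 𝕜)) := by
  refine ⟨⟨TH_mem hd, TH_add hd, ?_, TH_bound hd⟩, ?_, hkK_size, hkK_reg hd⟩
  · intro c f _
    rw [TH_smul]
  · intro f _ _ _
    exact Eventually.of_forall (fun x _ => rfl)

lemma TH_nonneg (hd : 0 < d) {𝕜 : Type*} [RCLike 𝕜] {g : (Fin d → ℝ) → ℝ≥0}
    (hg : MemLp (fun y => ((g y : ℝ) : 𝕜)) 2 volume) :
    ∀ᵐ x, ‖TH (fun y => ((g y : ℝ) : 𝕜)) x‖ₑ = ∫⁻ y, ENNReal.ofReal (hk x y) * (g y : ℝ≥0∞) := by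
  filter_upwards [ae_int hd hg] with x hx
  have hint : Integrable (fun y => hk x y * (g y : ℝ)) volume := by
    refine hx.norm.congr (Eventually.of_forall fun y => ?_)
    simp only
    rw [norm_mul, RCLike.norm_ofReal, RCLike.norm_ofReal, abs_of_nonneg (hk_nonneg x y),
      abs_of_nonneg (g y).coe_nonneg]
  have h1 : TH (fun y => ((g y : ℝ) : 𝕜)) x = ((∫ y, hk x y * (g y : ℝ) : ℝ) : 𝕜) := by
    unfold TH
    rw [← integral_ofReal]
    congr 1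
    ext y
    push_cast
    rfl
  have h0 : ∀ y, 0 ≤ hk x y * (g y : ℝ) := fun y => mul_nonneg (hk_nonneg x y) (g y).coe_nonneg
  rw [h1, ← ofReal_norm, RCLike.norm_ofReal, abs_of_nonneg (integral_nonneg h0),
    ofReal_integral_eq_lintegral_ofReal hint (Eventually.of_forall h0)]
  apply lintegral_congr
  intro y
  rw [ENNReal.ofReal_mul (hk_nonneg x y), ENNReal.ofReal_coe_nnreal]

lemma isWeight_of {w : (Fin d → ℝ) → ℝ≥0} (hw : Measurable w)
    (hb : ∀ R : ℝ, ∃ B : ℝ≥0, ∀ x, ‖x‖ ≤ R → w x ≤ B) : IsWeight w := by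
  unfold IsWeight
  rw [locallyIntegrable_iff]
  intro k hk
  obtain ⟨R, hR⟩ := hk.isBounded.exists_norm_le
  obtain ⟨B, hB⟩ := hb R
  refine Measure.integrableOn_of_bounded (M := (B:ℝ)) hk.measure_lt_top.ne
    hw.coe_nnreal_real.aestronglyMeasurable ?_
  filter_upwards [ae_restrict_mem hk.measurableSet] with x hx
  rw [Real.norm_of_nonneg (w x).coe_nonneg]
  exact_mod_cast hB x (hR x hx)

lemma bumps_of {p : ℝ} {Φ₁ Φ₂ : ℝ≥0 → ℝ≥0} {w σ : (Fin d → ℝ) → ℝ≥0} {M : ℝ≥0}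
    (h1 : ∀ (a : Fin d → ℝ) (l : ℝ), 0 < l → Sep.lux volume Φ₁ w (Sep.cube a l) ^ (p - 1) *
        (Sep.wm volume σ (Sep.cube a l) / volume (Sep.cube a l)) ≤ M)
    (h2 : ∀ (a : Fin d → ℝ) (l : ℝ), 0 < l →
        (Sep.wm volume w (Sep.cube a l) / volume (Sep.cube a l)) ^ (p - 1) *
        Sep.lux volume Φ₂ σ (Sep.cube a l) ≤ M) : Bumps p Φ₁ Φ₂ w σ M := by
  have e : ∀ (u : (Fin d → ℝ) → ℝ≥0) (a : Fin d → ℝ) (l : ℝ),
      Sep.wm volume u (Sep.cube a l) / volume (Sep.cube a l) = avg u (cube a l) := by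
    intro u a l
    have hc : Sep.cube a l = cube a l := rfl
    unfold avg Sep.wm
    rw [hc, withDensity_apply _ (cube_meas a l), div_eq_mul_inv, mul_comm]
  have e' : ∀ (Φ : ℝ≥0 → ℝ≥0) (u : (Fin d → ℝ) → ℝ≥0) (a : Fin d → ℝ) (l : ℝ),
      Sep.lux volume Φ u (Sep.cube a l) = lux Φ u (cube a l) := by
    intro Φ u a l
    exact lux_congr (ae_eq_refl u) (cube a l)
  constructor
  · intro a l hl
    have := h1 a l hl
    rw [e, e'] at this
    exact this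
  · intro a l hl
    have := h2 a l hl
    rw [e, e'] at this
    exact this

lemma cs_of {f : (Fin d → ℝ) → ℝ≥0} {R : ℝ} (hR : ∀ x, R < ‖x‖ → f x = 0) (𝕜 : Type*)
    [RCLike 𝕜] : HasCompactSupport (fun x => ((f x : ℝ) : 𝕜)) := by
  apply HasCompactSupport.of_support_subset_isCompact (isCompact_closedBall (0 : Fin d → ℝ) R)
  intro x hx
  by_contra hc
  apply hx
  rw [Metric.mem_closedBall, dist_zero_right, not_le] at hc
  simp only [hR x hc, NNReal.coe_zero, RCLike.ofReal_zero]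

/-- Necessity, for Calderon-Zygmund operators. -/
theorem necess_czo (hd : 0 < d) {𝕜 : Type*} [RCLike 𝕜] {p q : ℝ} (hpq : p.HolderConjugate q)
    {Φ₁ Φ₂ : ℝ≥0 → ℝ≥0} (hΦ₁ : IsYoung Φ₁) (hΦ₂ : IsYoung Φ₂)
    (H : ∀ (T : ((Fin d → ℝ) → 𝕜) → ((Fin d → ℝ) → 𝕜)) (K : (Fin d → ℝ) → (Fin d → ℝ) → 𝕜),
      IsCZO T K → ∀ w σ : (Fin d → ℝ) → ℝ≥0, IsWeight w → IsWeight σ → ∀ M : ℝ≥0,
      Bumps p Φ₁ Φ₂ w σ M → ∃ C : ℝ≥0, BoundedBy p T w σ C) :
    IntegralCondition (p - 1) Φ₁ ∧ IntegralCondition (q - 1) Φ₂ := by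
  have hp0 : 0 < p := by linarith [hpq.lt]
  have key := necess hpq hd hΦ₁.toSep hΦ₂.toSep ?_
  · obtain ⟨⟨c₁, hc₁, hi₁⟩, ⟨c₂, hc₂, hi₂⟩⟩ := key
    exact ⟨⟨c₁, hc₁, lt_top_iff_ne_top.2 hi₁⟩, ⟨c₂, hc₂, lt_top_iff_ne_top.2 hi₂⟩⟩
  · rintro w σ hw hσ hwb hσb ⟨M, h1, h2⟩
    obtain ⟨C, hC⟩ := H TH _ (isCZO_TH hd 𝕜) w σ (isWeight_of hw hwb) (isWeight_of hσ hσb) M
      (bumps_of h1 h2)
    refine ⟨C ^ p, ?_⟩
    rintro f hf ⟨B, hB⟩ ⟨R, hR⟩
    have hfm : Measurable (fun x => ((f x : ℝ) : 𝕜)) :=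
      RCLike.continuous_ofReal.measurable.comp hf.coe_nnreal_real
    obtain ⟨⟨g, hg⟩, hb⟩ := hC (fun x => ((f x : ℝ) : 𝕜)) hfm.aestronglyMeasurable
      ⟨B, fun x => by
        rw [RCLike.norm_ofReal, abs_of_nonneg (f x).coe_nonneg]
        exact_mod_cast hB x⟩ (cs_of hR 𝕜)
    obtain ⟨B', hB'⟩ := hwb R
    have hmem : ∀ r : ℝ≥0∞, MemLp (fun x => (((w x * f x : ℝ≥0) : ℝ) : 𝕜)) r volume := by
      intro r
      have hmm : Measurable (fun x => (((w x * f x : ℝ≥0) : ℝ) : 𝕜)) :=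
        RCLike.continuous_ofReal.measurable.comp (hw.mul hf).coe_nnreal_real
      refine Sep.bddMem (f := fun x => (((w x * f x : ℝ≥0) : ℝ) : 𝕜)) (B := B' * B)
        (A := Metric.closedBall 0 R) hmm.aestronglyMeasurable ?_ measurableSet_closedBall
        (Sep.vol_cb_fin _ _) ?_ r
      · intro x
        rw [RCLike.norm_ofReal, abs_of_nonneg (NNReal.coe_nonneg _)]
        rcases le_or_gt ‖x‖ R with h | h
        · have : w x * f x ≤ B' * B := mul_le_mul' (hB' x h) (hB x)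
          exact_mod_cast this
        · rw [hR x h, mul_zero, NNReal.coe_zero]
          positivity
      · intro x hx
        rw [Metric.mem_closedBall, dist_zero_right, not_le] at hx
        rw [hR x hx, mul_zero, NNReal.coe_zero, RCLike.ofReal_zero]
    have hfun : (fun x => ((w x : ℝ) : 𝕜) * ((f x : ℝ) : 𝕜)) =
        fun x => (((w x * f x : ℝ≥0) : ℝ) : 𝕜) := by
      ext x
      push_cast
      rfl
    have hb' := hb g hg
    rw [hfun] at hg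
    have heq := hg.eq_of_memLp (hmem 2) (memLp_one_iff_integrable.1 (hmem 1))
    have hae : ∀ᵐ x, ‖g x‖ₑ = ∫⁻ y, ENNReal.ofReal (hk x y) * ((w y : ℝ≥0∞) * (f y : ℝ≥0∞)) := by
      filter_upwards [heq, TH_nonneg hd (hmem 2)] with x hx hx'
      rw [← hx, hx']
      apply lintegral_congr
      intro y
      push_cast
      rfl
    have hac : volume.withDensity (fun x => (σ x : ℝ≥0∞)) ≪ (volume : Measure (Fin d → ℝ)) :=
      withDensity_absolutelyContinuous _ _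
    unfold wnorm at hb'
    rw [rpow_eLp hp0, rpow_eLp hp0] at hb'
    have h3 := ENNReal.rpow_le_rpow hb' hp0.le
    rw [ENNReal.mul_rpow_of_nonneg _ _ hp0.le, ← ENNReal.rpow_mul, ← ENNReal.rpow_mul,
      one_div_mul_cancel hp0.ne', ENNReal.rpow_one, ENNReal.rpow_one] at h3
    unfold Sep.wm
    rw [ENNReal.coe_rpow_of_nonneg _ hp0.le]
    calc ∫⁻ x, (∫⁻ y, ENNReal.ofReal (hk x y) * ((w y : ℝ≥0∞) * (f y : ℝ≥0∞))) ^ p
          ∂(volume.withDensity fun x => (σ x : ℝ≥0∞))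
        = ∫⁻ x, ‖g x‖ₑ ^ p ∂(volume.withDensity fun x => (σ x : ℝ≥0∞)) := by
          apply lintegral_congr_ae
          filter_upwards [hac.ae_le hae] with x hx
          rw [hx]
      _ ≤ _ := h3
      _ = _ := by
          congr 1
          apply lintegral_congr
          intro x
          rw [← ofReal_norm, RCLike.norm_ofReal, abs_of_nonneg (f x).coe_nonneg,
            ENNReal.ofReal_coe_nnreal]

lemma qk_inj (hd : 0 < d) : Function.Injective (qk d) := by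
  have key : ∀ a b : ℤ, a < b → qk d a ≠ qk d b := by
    intro a b hab he
    have h1 : volume (qk d a) ≤ volume (qk d (b - 1)) := measure_mono (qk_mono (by omega))
    have h2 := qk_two hd b
    rw [← he] at h2
    have h3 : 2 * volume (qk d a) ≤ volume (qk d a) := (mul_le_mul' le_rfl h1).trans h2
    have h4 := qk_vol_ne (d := d) a
    rw [two_mul] at h3
    have h5 : volume (qk d a) + volume (qk d a) ≤ 0 + volume (qk d a) := by rwa [zero_add]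
    have h6 := (ENNReal.add_le_add_iff_right h4.2).1 h5
    exact h4.1 (nonpos_iff_eq_zero.1 h6)
  intro a b he
  rcases lt_trichotomy a b with h | h | h
  · exact absurd he (key a b h)
  · exact h
  · exact absurd he.symm (key b a h)

/-- The family of the cubes `[-2^k, 2^k)^d` is `1/2`-sparse. -/
theorem sparse_qk (hd : 0 < d) : IsSparse (1 / 2) (Set.range (qk d)) := by
  refine ⟨?_, ?_⟩
  · rintro Q ⟨k, rfl⟩
    exact ⟨fun _ => -(2:ℝ) ^ k, 2 * 2 ^ k, by positivity, rfl⟩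
  · refine ⟨fun Q => ⋃ k : ℤ, ⋃ (_ : qk d k = Q), ek d k, ?_, ?_⟩
    · have e : ∀ k : ℤ, (⋃ j : ℤ, ⋃ (_ : qk d j = qk d k), ek d j) = ek d k := by
        intro k
        ext x
        simp only [Set.mem_iUnion]
        constructor
        · rintro ⟨j, hj, hx⟩
          rw [qk_inj hd hj] at hx
          exact hx
        · intro hx
          exact ⟨k, rfl, hx⟩
      rintro Q ⟨k, rfl⟩
      simp only [e]
      refine ⟨ek_meas k, Set.sdiff_subset, ?_⟩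
      have h1 := ek_vol hd k
      have h2 : ((1 / 2 : ℝ≥0) : ℝ≥0∞) = (2:ℝ≥0∞)⁻¹ := by
        rw [one_div, ENNReal.coe_inv (by norm_num)]
        norm_num
      rw [h2]
      calc (2:ℝ≥0∞)⁻¹ * volume (qk d k) ≤ (2:ℝ≥0∞)⁻¹ * ((2:ℕ) * volume (ek d k)) :=
            mul_le_mul' le_rfl h1
        _ = volume (ek d k) := by
            rw [← mul_assoc]
            push_cast
            rw [ENNReal.inv_mul_cancel (by norm_num) (by norm_num), one_mul]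
    · rintro Q ⟨k, rfl⟩ Q' ⟨j, rfl⟩ hne
      have hkj : k ≠ j := fun h => hne (by rw [h])
      rw [Function.onFun, Set.disjoint_left]
      intro x hx hx'
      simp only [Set.mem_iUnion] at hx hx'
      obtain ⟨a, ha, hxa⟩ := hx
      obtain ⟨b, hb, hxb⟩ := hx'
      rw [qk_inj hd ha] at hxa
      rw [qk_inj hd hb] at hxb
      exact Set.disjoint_left.1 (ek_disj hkj) hxa hxb

/-- Necessity, for sparse operators. -/
theorem necess_sparse (hd : 0 < d) {𝕜 : Type*} [RCLike 𝕜] {p q : ℝ} (hpq : p.HolderConjugate q)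
    {Φ₁ Φ₂ : ℝ≥0 → ℝ≥0} (hΦ₁ : IsYoung Φ₁) (hΦ₂ : IsYoung Φ₂)
    (H : ∀ S : Set (Set (Fin d → ℝ)), IsSparse (1 / 2) S →
      ∀ w σ : (Fin d → ℝ) → ℝ≥0, IsWeight w → IsWeight σ → ∀ M : ℝ≥0,
      Bumps p Φ₁ Φ₂ w σ M → ∃ C : ℝ≥0, ∀ f : (Fin d → ℝ) → 𝕜, AEStronglyMeasurable f volume →
        (∃ B : ℝ, ∀ x, ‖f x‖ ≤ B) → HasCompactSupport f →
        sparseNorm p S w σ f ≤ C * wnorm p w f) :
    IntegralCondition (p - 1) Φ₁ ∧ IntegralCondition (q - 1) Φ₂ := by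
  have hp0 : 0 < p := by linarith [hpq.lt]
  have key := necess hpq hd hΦ₁.toSep hΦ₂.toSep ?_
  · obtain ⟨⟨c₁, hc₁, hi₁⟩, ⟨c₂, hc₂, hi₂⟩⟩ := key
    exact ⟨⟨c₁, hc₁, lt_top_iff_ne_top.2 hi₁⟩, ⟨c₂, hc₂, lt_top_iff_ne_top.2 hi₂⟩⟩
  · rintro w σ hw hσ hwb hσb ⟨M, h1, h2⟩
    obtain ⟨C, hC⟩ := H _ (sparse_qk hd) w σ (isWeight_of hw hwb) (isWeight_of hσ hσb) M
      (bumps_of h1 h2)
    refine ⟨((4 : ℝ≥0) ^ d) ^ p * C ^ p, ?_⟩
    rintro f hf ⟨B, hB⟩ ⟨R, hR⟩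
    have hfm : Measurable (fun x => ((f x : ℝ) : 𝕜)) :=
      RCLike.continuous_ofReal.measurable.comp hf.coe_nnreal_real
    have hb' := hC (fun x => ((f x : ℝ) : 𝕜)) hfm.aestronglyMeasurable
      ⟨B, fun x => by
        rw [RCLike.norm_ofReal, abs_of_nonneg (f x).coe_nonneg]
        exact_mod_cast hB x⟩ (cs_of hR 𝕜)
    unfold sparseNorm wnorm at hb'
    rw [rpow_eLp hp0] at hb'
    have h3 := ENNReal.rpow_le_rpow hb' hp0.le
    rw [ENNReal.mul_rpow_of_nonneg _ _ hp0.le, ← ENNReal.rpow_mul, ← ENNReal.rpow_mul,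
      one_div_mul_cancel hp0.ne', ENNReal.rpow_one, ENNReal.rpow_one] at h3
    have hfe : ∀ x, ‖((f x : ℝ) : 𝕜)‖ₑ = (f x : ℝ≥0∞) := by
      intro x
      rw [← ofReal_norm, RCLike.norm_ofReal, abs_of_nonneg (f x).coe_nonneg,
            ENNReal.ofReal_coe_nnreal]
    have hop : ∀ y, sparseOp (Set.range (qk d)) (fun y => ((w y : ℝ) : 𝕜) * ((f y : ℝ) : 𝕜)) y =
        ∑' k : ℤ, (qk d k).indicator
        (fun _ => (∫⁻ z in qk d k, (f z : ℝ≥0∞) ∂(Sep.wm volume w)) / volume (qk d k)) y := by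
      intro y
      unfold sparseOp
      rw [tsum_range (g := qk d) (fun Q : Set (Fin d → ℝ) => Q.indicator
        (fun _ => (volume Q)⁻¹ * ∫⁻ y in Q, ‖((w y : ℝ) : 𝕜) * ((f y : ℝ) : 𝕜)‖ₑ) y) (qk_inj hd)]
      apply tsum_congr
      intro k
      rw [avg_eq (ae_eq_refl w) (ae_eq_refl _) hw hfm (qk_meas k), div_eq_mul_inv, mul_comm]
      simp only [hfe]
    simp only [hop, hfe] at h3
    rw [← ENNReal.coe_rpow_of_nonneg _ hp0.le] at h3
    have h4 := hk_weighted hp0 hw (f := fun z => (f z : ℝ≥0∞)) hf.coe_nnreal_ennreal (C := C ^ p) h3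
    refine h4.trans (le_of_eq ?_)
    have e : ((((4 : ℝ≥0) ^ d) ^ p : ℝ≥0) : ℝ≥0∞) = ((4 : ℝ≥0∞) ^ d) ^ p := by
      rw [ENNReal.coe_rpow_of_nonneg _ hp0.le, ENNReal.coe_pow]
      rfl
    rw [ENNReal.coe_mul, e]

end necessity

/-- The separated bump conditions with Young functions `Φ₁, Φ₂` imply the boundedness of `T(· w)`
from `L^p(w)` to `L^p(σ)` for all Calderon-Zygmund operators `T`, or for all sparse operators, if
and only if `∫^∞ (x / Φ₁(x))^(p-1) dx / x < ∞` and `∫^∞ (x / Φ₂(x))^(q-1) dx / x < ∞`. -/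
theorem result {d : ℕ} (hd : 0 < d) {𝕜 : Type*} [RCLike 𝕜] {p q : ℝ} (hpq : p.HolderConjugate q)
    {Φ₁ Φ₂ : ℝ≥0 → ℝ≥0} (hΦ₁ : IsYoung Φ₁) (hΦ₂ : IsYoung Φ₂) :
    List.TFAE [
      -- (1) the integral conditions
      IntegralCondition (p - 1) Φ₁ ∧ IntegralCondition (q - 1) Φ₂,
      -- (2) all Calderon-Zygmund operators, uniformly over the pairs of weights
      ∀ (T : ((Fin d → ℝ) → 𝕜) → ((Fin d → ℝ) → 𝕜)) (K : (Fin d → ℝ) → (Fin d → ℝ) → 𝕜),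
        IsCZO T K → ∀ M : ℝ≥0, ∃ C : ℝ≥0, ∀ w σ : (Fin d → ℝ) → ℝ≥0, IsWeight w → IsWeight σ →
          Bumps p Φ₁ Φ₂ w σ M → BoundedBy p T w σ C,
      -- (3) all Calderon-Zygmund operators, for each pair of weights
      ∀ (T : ((Fin d → ℝ) → 𝕜) → ((Fin d → ℝ) → 𝕜)) (K : (Fin d → ℝ) → (Fin d → ℝ) → 𝕜),
        IsCZO T K → ∀ w σ : (Fin d → ℝ) → ℝ≥0, IsWeight w → IsWeight σ → ∀ M : ℝ≥0,
          Bumps p Φ₁ Φ₂ w σ M → ∃ C : ℝ≥0, BoundedBy p T w σ C,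
      -- (4) all sparse operators, uniformly over the sparse families and the pairs of weights
      ∀ γ : ℝ≥0, 0 < γ → ∀ M : ℝ≥0, ∃ C : ℝ≥0, ∀ S : Set (Set (Fin d → ℝ)), IsSparse γ S →
        ∀ w σ : (Fin d → ℝ) → ℝ≥0, IsWeight w → IsWeight σ → Bumps p Φ₁ Φ₂ w σ M →
          ∀ f : (Fin d → ℝ) → 𝕜, AEStronglyMeasurable f volume →
            sparseNorm p S w σ f ≤ C * wnorm p w f,
      -- (5) sparse operators of `1/2`-sparse families, for each family and each pair of weights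
      ∀ S : Set (Set (Fin d → ℝ)), IsSparse (1 / 2) S →
        ∀ w σ : (Fin d → ℝ) → ℝ≥0, IsWeight w → IsWeight σ → ∀ M : ℝ≥0,
        Bumps p Φ₁ Φ₂ w σ M → ∃ C : ℝ≥0, ∀ f : (Fin d → ℝ) → 𝕜, AEStronglyMeasurable f volume →
          (∃ B : ℝ, ∀ x, ‖f x‖ ≤ B) → HasCompactSupport f →
          sparseNorm p S w σ f ≤ C * wnorm p w f ] := by
  tfae_have 1 → 2 := fun h T K hT M => suff_czo hd hpq hΦ₁ hΦ₂ h.1 h.2 T K hT M
  tfae_have 2 → 3 := fun h T K hT w σ hw hσ M hM => by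
    obtain ⟨C, hC⟩ := h T K hT M
    exact ⟨C, hC w σ hw hσ hM⟩
  tfae_have 3 → 1 := fun h => necess_czo hd hpq hΦ₁ hΦ₂ h
  tfae_have 1 → 4 := fun h γ hγ M => suff_sparse hd hpq hΦ₁ hΦ₂ h.1 h.2 hγ M
  tfae_have 4 → 5 := fun h S hS w σ hw hσ M hM => by
    obtain ⟨C, hC⟩ := h (1 / 2) (by norm_num) M
    exact ⟨C, fun f hf _ _ => hC S hS w σ hw hσ hM f hf⟩
  tfae_have 5 → 1 := fun h => necess_sparse hd hpq hΦ₁ hΦ₂ h
  tfae_finish

end Pool.Agent.Results.MP_93f72d_an.Characterization
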